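import Pool.Agent.helper58.DC.Spec1

/-! # dq:IM. `Induces` is an equivalence, invariant under automorphisms -/

set_option autoImplicit false

namespace Pool.Agent.helper51.DC

open Pool.Agent.helper58.DC

theorem IM (hOM : OM_stmt) : IM_stmt := by
  intro G _ _ M ψ φ θ
  refine ⟨?_, ?_, ?_, ?_⟩
  · intro g
    exact ⟨0, M.zero_mem, by simp⟩
  · intro h g
    obtain ⟨a, ha, hg⟩ := h g
    refine ⟨-a, M.neg_mem ha, ?_⟩
    rw [show omega φ g - omega ψ g = -(omega ψ g - omega φ g) by ring, hg]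
    simp
  · intro h h' g
    obtain ⟨a, ha, hg⟩ := h g
    obtain ⟨b, hb, hg'⟩ := h' g
    refine ⟨a + b, M.add_mem ha hb, ?_⟩
    rw [show omega ψ g - omega θ g = (omega ψ g - omega φ g) + (omega φ g - omega θ g) by ring,
      hg, hg']
    simp
  · intro α
    constructor
    · intro h g
      obtain ⟨a, ha, hg⟩ := h (α g)
      rw [hOM G α ψ g, hOM G α φ g] at hg
      exact ⟨a, ha, hg⟩
    · intro h g
      obtain ⟨a, ha, hg⟩ := h (α⁻¹ g)
      refine ⟨a, ha, ?_⟩
      have h1 : α (α⁻¹ g) = g := by simp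
      rw [← hOM G α ψ (α⁻¹ g), ← hOM G α φ (α⁻¹ g), h1] at hg
      exact hg

end Pool.Agent.helper51.DC
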